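import Mathlib
import Pool.Agent.Helper189.FreeRep

/-! Words defining group laws on free nilpotent groups: the free group part. -/

set_option autoImplicit false

namespace Pool.Agent.T2H66.GroupLaw

open FreeGroup

/-- number of letters with index `0` -/
def cnt (L : List (Fin 2 × Bool)) : ℕ := L.countP (fun p => decide (p.1 = 0))

/-- reduced, nonempty, begins and ends with a letter of index `0` -/
structure Blk (P : List (Fin 2 × Bool)) : Prop where
  red : IsReduced P
  hd : ∀ a ∈ P.head?, a.1 = 0
  lst : ∀ a ∈ P.getLast?, a.1 = 0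
  ne : P ≠ []

theorem cnt_append (L M : List (Fin 2 × Bool)) : cnt (L ++ M) = cnt L + cnt M := by
  unfold cnt; exact List.countP_append

theorem cnt_invRev (L : List (Fin 2 × Bool)) : cnt (invRev L) = cnt L := by
  unfold cnt invRev
  rw [List.countP_reverse, List.countP_map]
  rfl

theorem blk_inv {T : List (Fin 2 × Bool)} (hT : Blk T) :
    Blk (invRev T) ∧ mk (invRev T) = (mk T)⁻¹ ∧ cnt (invRev T) = cnt T := by
  refine ⟨⟨?_, ?_, ?_, ?_⟩, ?_, cnt_invRev T⟩
  · rw [isReduced_iff_reduce_eq, reduce_invRev, hT.red.reduce_eq]
  · intro a ha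
    unfold invRev at ha
    rw [List.head?_reverse, List.getLast?_map] at ha
    simp only [Option.mem_def, Option.map_eq_some_iff] at ha
    obtain ⟨b, hb, rfl⟩ := ha
    exact hT.lst b hb
  · intro a ha
    unfold invRev at ha
    rw [List.getLast?_reverse, List.head?_map] at ha
    simp only [Option.mem_def, Option.map_eq_some_iff] at ha
    obtain ⟨b, hb, rfl⟩ := ha
    exact hT.hd b hb
  · intro h
    have := congrArg List.length h
    rw [invRev_length] at this
    exact hT.ne (List.length_eq_zero_iff.1 this)
  · rw [inv_mk]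

theorem blk_pow {T : List (Fin 2 × Bool)} (hT : Blk T) (n : ℕ) :
    ∃ P, Blk P ∧ mk P = (mk T) ^ (n + 1) ∧ cnt T ≤ cnt P := by
  have key := reduceCyclically.reduce_flatten_replicate_succ hT.red n
  have hc := reduceCyclically.conj_conjugator_reduceCyclically T
  set U := reduceCyclically.conjugator T with hU
  set C := reduceCyclically T with hC
  have e1 : reduce (List.replicate (n + 1) T).flatten =
      (U ++ C) ++ ((List.replicate n C).flatten ++ invRev U) := by
    rw [key, List.replicate_succ, List.flatten_cons]
    simp only [List.append_assoc]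
  have e2 : reduce (List.replicate (n + 1) T).flatten =
      (U ++ (List.replicate n C).flatten) ++ (C ++ invRev U) := by
    rw [key, List.replicate_succ', List.flatten_concat]
    simp only [List.append_assoc]
  have n1 : U ++ C ≠ [] := by
    intro h
    rw [List.append_eq_nil_iff] at h
    apply hT.ne
    rw [← hc, h.1, h.2]
    rfl
  have n2 : C ++ invRev U ≠ [] := by
    intro h
    rw [List.append_eq_nil_iff] at h
    apply n1
    have := congrArg List.length h.2
    rw [invRev_length] at this
    rw [h.1, List.length_eq_zero_iff.1 this]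
    rfl
  refine ⟨reduce (List.replicate (n + 1) T).flatten, ⟨?_, ?_, ?_, ?_⟩, ?_, ?_⟩
  · rw [isReduced_iff_reduce_eq, reduce.idem]
  · intro a ha
    apply hT.hd a
    rw [e1, List.head?_append_of_ne_nil _ n1] at ha
    rw [← hc, List.head?_append_of_ne_nil _ n1]
    exact ha
  · intro a ha
    apply hT.lst a
    rw [e2, List.getLast?_append_of_ne_nil _ n2] at ha
    rw [← hc, List.append_assoc, List.getLast?_append_of_ne_nil _ n2]
    exact ha
  · rw [e1]
    intro h
    rw [List.append_eq_nil_iff] at h
    exact n1 h.1
  · rw [reduce.self]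
    clear key e1 e2
    induction n with
    | zero => simp
    | succ n ih =>
      rw [List.replicate_succ, List.flatten_cons, ← mul_mk, ih, pow_succ' _ (n + 1)]
  · rw [e1]
    have : cnt T = cnt (U ++ C ++ invRev U) := by rw [hc]
    rw [this]
    simp only [cnt_append]
    omega

theorem mk_replicate (s : Fin 2 × Bool) (n : ℕ) : mk (List.replicate n s) = mk [s] ^ n := by
  induction n with
  | zero => rfl
  | succ n ih => rw [List.replicate_succ, pow_succ', ← ih, mul_mk]; rfl

theorem exists_block (s : Fin 2 × Bool) : ∀ v : List (Fin 2 × Bool), ∃ (k : ℕ) (t : List (Fin 2 × Bool)),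
    s :: v = List.replicate (k + 1) s ++ t ∧ ∀ y ∈ t.head?, y ≠ s := by
  intro v
  induction v with
  | nil => exact ⟨0, [], by simp, by simp⟩
  | cons x v ih =>
    by_cases hx : x = s
    · subst hx
      obtain ⟨k, t, h1, h2⟩ := ih
      refine ⟨k + 1, t, ?_, h2⟩
      rw [h1, List.replicate_succ (n := k + 1)]
      rfl
    · refine ⟨0, x :: v, by simp, ?_⟩
      simpa using hx

theorem main_count {T : List (Fin 2 × Bool)} (hT : Blk T)
    (φ : FreeGroup (Fin 2) →* FreeGroup (Fin 2)) (h0 : φ (of 0) = mk T) (h1 : φ (of 1) = of 1) :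
    ∀ (m : ℕ) (v : List (Fin 2 × Bool)), v.length ≤ m → IsReduced v →
      ∃ L, IsReduced L ∧ mk L = φ (mk v) ∧
        (∀ x ∈ L.head?, ∃ s ∈ v.head?, x.1 = s.1 ∧ (s.1 = 1 → x = s)) ∧
        ((∀ x ∈ L, x.1 = 1) ∨ cnt T ≤ cnt L) := by
  intro m
  induction m with
  | zero =>
    intro v hv _
    have : v = [] := List.length_eq_zero_iff.1 (Nat.le_zero.1 hv)
    subst this
    refine ⟨[], IsReduced.nil, ?_, by simp, Or.inl (by simp)⟩
    exact (_root_.map_one φ).symm
  | succ m ih =>
    intro v hv hred
    match v, hv, hred with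
    | [], _, _ =>
      refine ⟨[], IsReduced.nil, ?_, by simp, Or.inl (by simp)⟩
      exact (_root_.map_one φ).symm
    | s :: v', hv, hred =>
      by_cases hs : s.1 = 1
      · -- a letter of index 1
        have hv' : v'.length ≤ m := by simpa using hv
        have hred' : IsReduced v' := (List.isChain_cons.1 hred).2
        obtain ⟨L, hL, hmk, hhd, hc⟩ := ih v' hv' hred'
        refine ⟨s :: L, ?_, ?_, ?_, ?_⟩
        · unfold FreeGroup.IsReduced
          rw [List.isChain_cons]
          refine ⟨?_, hL⟩
          intro x hx hsx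
          obtain ⟨s', hs', h2, h3⟩ := hhd x hx
          have h4 : x = s' := h3 (by rw [← h2, ← hsx, hs])
          subst h4
          unfold FreeGroup.IsReduced at hred
          rw [List.isChain_cons] at hred
          exact hred.1 x hs' hsx
        · have e1 : mk (s :: L) = mk [s] * mk L := by rw [mul_mk]; rfl
          have e2 : mk (s :: v') = mk [s] * mk v' := by rw [mul_mk]; rfl
          rw [e1, e2, _root_.map_mul, hmk]
          congr 1
          obtain ⟨i, b⟩ := s
          simp only at hs
          subst hs
          cases b with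
          | true => exact h1.symm
          | false =>
            have : (mk [((1 : Fin 2), false)] : FreeGroup (Fin 2)) = (of 1)⁻¹ := rfl
            rw [this, _root_.map_inv, h1]
        · intro x hx
          simp only [List.head?_cons, Option.mem_def, Option.some.injEq] at hx
          subst hx
          exact ⟨s, by simp, rfl, fun _ => rfl⟩
        · rcases hc with hc | hc
          · left
            intro x hx
            rcases List.mem_cons.1 hx with rfl | hx
            · exact hs
            · exact hc x hx
          · right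
            have : cnt (s :: L) = cnt [s] + cnt L := cnt_append [s] L
            omega
      · have hs0 : s.1 = 0 := by
          have := s.1.isLt
          omega
        obtain ⟨k, t, ht, hty⟩ := exists_block s v'
        rw [ht] at hv hred ⊢
        have hred2 := hred
        unfold FreeGroup.IsReduced at hred
        rw [List.isChain_append] at hred
        obtain ⟨_, hredt, hjoin⟩ := hred
        have htl : t.length ≤ m := by
          simp only [List.length_append, List.length_replicate] at hv
          omega
        have hy1 : ∀ y ∈ t.head?, y.1 = 1 := by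
          intro y hy
          by_contra hne
          have hy0 : y.1 = 0 := by
            have := y.1.isLt
            omega
          apply hty y hy
          have h5 := hjoin s (by simp [List.getLast?_replicate]) y hy (by rw [hs0, hy0])
          exact Prod.ext (by rw [hs0, hy0]) h5.symm
        obtain ⟨L, hL, hmk, hhd, _⟩ := ih t htl hredt
        -- the block
        obtain ⟨P, hP, hPm, hPc⟩ : ∃ P, Blk P ∧ mk P = φ (mk (List.replicate (k + 1) s)) ∧
            cnt T ≤ cnt P := by
          obtain ⟨P, hP, hPm, hPc⟩ := blk_pow hT k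
          obtain ⟨i, b⟩ := s
          simp only at hs0
          subst hs0
          cases b with
          | true =>
            refine ⟨P, hP, ?_, hPc⟩
            rw [mk_replicate, _root_.map_pow, hPm]
            congr 1
            exact h0.symm
          | false =>
            obtain ⟨q1, q2, q3⟩ := blk_inv hP
            refine ⟨invRev P, q1, ?_, by rw [q3]; exact hPc⟩
            rw [q2, hPm, mk_replicate, _root_.map_pow, ← inv_pow]
            congr 1
            have : (mk [((0 : Fin 2), false)] : FreeGroup (Fin 2)) = (of 0)⁻¹ := rfl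
            rw [this, _root_.map_inv, h0]
        refine ⟨P ++ L, ?_, ?_, ?_, ?_⟩
        · unfold FreeGroup.IsReduced
          rw [List.isChain_append]
          refine ⟨hP.red, hL, ?_⟩
          intro x hx y hy hxy
          exfalso
          obtain ⟨s', hs', h2, _⟩ := hhd y hy
          have h6 := hP.lst x hx
          have h7 := hy1 s' hs'
          rw [h6, h2, h7] at hxy
          exact absurd hxy (by decide)
        · rw [← mul_mk, ← mul_mk, _root_.map_mul, hmk, hPm]
        · intro x hx
          rw [List.head?_append_of_ne_nil _ hP.ne] at hx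
          refine ⟨s, by simp [List.replicate_succ], ?_, ?_⟩
          · rw [hP.hd x hx, hs0]
          · intro h; exact absurd h hs
        · right
          rw [cnt_append]
          omega

theorem mk_mem_zpowers (L : List (Fin 2 × Bool)) (h : ∀ x ∈ L, x.1 = 1) :
    ∃ n : ℤ, (mk L : FreeGroup (Fin 2)) = (of 1) ^ n := by
  induction L with
  | nil => exact ⟨0, rfl⟩
  | cons x L ih =>
    obtain ⟨n, hn⟩ := ih (fun y hy => h y (List.mem_cons_of_mem _ hy))
    have e1 : (mk (x :: L) : FreeGroup (Fin 2)) = mk [x] * mk L := by rw [mul_mk]; rfl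
    have hx := h x List.mem_cons_self
    obtain ⟨i, b⟩ := x
    simp only at hx
    subst hx
    cases b with
    | true =>
      refine ⟨1 + n, ?_⟩
      rw [e1, hn, zpow_add, zpow_one]
      rfl
    | false =>
      refine ⟨-1 + n, ?_⟩
      rw [e1, hn, zpow_add, zpow_neg, zpow_one]
      rfl

/-- decomposition of a word -/
theorem decomp (W : List (Fin 2 × Bool)) (hW : IsReduced W) :
    (∀ x ∈ W, x.1 = 1) ∨ ∃ B1 T B2, W = B1 ++ T ++ B2 ∧ Blk T ∧
      (∀ x ∈ B1, x.1 = 1) ∧ (∀ x ∈ B2, x.1 = 1) := by
  by_cases hall : ∀ x ∈ W, x.1 = 1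
  · exact Or.inl hall
  right
  -- left
  have L : ∀ V : List (Fin 2 × Bool), (¬ ∀ x ∈ V, x.1 = 1) → ∃ B R, V = B ++ R ∧
      (∀ x ∈ B, x.1 = 1) ∧ (∀ a ∈ R.head?, a.1 = 0) ∧ R ≠ [] := by
    intro V
    induction V with
    | nil => intro h; exact absurd (by simp) h
    | cons x V ih =>
      intro h
      by_cases hx : x.1 = 1
      · have : ¬ ∀ y ∈ V, y.1 = 1 := by
          intro h'
          apply h
          intro y hy
          rcases List.mem_cons.1 hy with rfl | hy
          · exact hx
          · exact h' y hy
        obtain ⟨B, R, e, h1, h2, h3⟩ := ih this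
        refine ⟨x :: B, R, by rw [e]; rfl, ?_, h2, h3⟩
        intro y hy
        rcases List.mem_cons.1 hy with rfl | hy
        · exact hx
        · exact h1 y hy
      · refine ⟨[], x :: V, rfl, by simp, ?_, by simp⟩
        intro a ha
        simp only [List.head?_cons, Option.mem_def, Option.some.injEq] at ha
        subst ha
        have := x.1.isLt
        omega
  obtain ⟨B, R, e, h1, h2, h3⟩ := L W hall
  have hR : ¬ ∀ x ∈ R.reverse, x.1 = 1 := by
    intro h
    cases R with
    | nil => exact h3 rfl
    | cons r R =>
      have a1 := h2 r (by simp)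
      have a2 := h r (by simp)
      rw [a1] at a2
      exact absurd a2 (by decide)
  obtain ⟨B', R', e', h1', h2', h3'⟩ := L R.reverse hR
  have eR : R = R'.reverse ++ B'.reverse := by
    rw [← List.reverse_append, ← e', List.reverse_reverse]
  have hR'ne : R'.reverse ≠ [] := by simpa using h3'
  refine ⟨B, R'.reverse, B'.reverse, ?_, ⟨?_, ?_, ?_, hR'ne⟩, h1, by simpa using h1'⟩
  · rw [e, eR, List.append_assoc]
  · have hW' : IsReduced (B ++ (R'.reverse ++ B'.reverse)) := by
      rw [← eR, ← e]
      exact hW
    exact (List.isChain_append.1 (List.isChain_append.1 hW').2.1).1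
  · intro a ha
    apply h2 a
    rw [eR, List.head?_append_of_ne_nil _ hR'ne]
    exact ha
  · intro a ha
    apply h2' a
    rw [List.getLast?_reverse] at ha
    exact ha

theorem cnt_eq_zero {L : List (Fin 2 × Bool)} (h : ∀ x ∈ L, x.1 = 1) : cnt L = 0 := by
  unfold cnt
  rw [List.countP_eq_zero]
  intro a ha
  simp [h a ha]

/-- If `w (w (a, b), b⁻¹) = a` then at most one letter of the reduced word `w` is `a` or `a⁻¹`. -/
theorem lemmaA (w : FreeGroup (Fin 2)) (hw : FreeGroup.lift ![w, (of 1)⁻¹] w = of 0) :
    cnt w.toWord ≤ 1 := by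
  rcases decomp w.toWord isReduced_toWord with h | ⟨B1, T, B2, e, hT, h1, h2⟩
  · rw [cnt_eq_zero h]
    omega
  obtain ⟨i, hi⟩ := mk_mem_zpowers B1 h1
  obtain ⟨j, hj⟩ := mk_mem_zpowers B2 h2
  have ew : w = (of 1) ^ i * mk T * (of 1) ^ j := by
    rw [← hi, ← hj, mul_mk, mul_mk, ← e, mk_toWord]
  set φ : FreeGroup (Fin 2) →* FreeGroup (Fin 2) := FreeGroup.lift ![mk T, of 1] with hφ
  set τ : FreeGroup (Fin 2) →* FreeGroup (Fin 2) :=
    FreeGroup.lift ![(of 1) ^ i * of 0 * (of 1) ^ j, (of 1)⁻¹] with hτ
  have p0 : φ (of 0) = mk T := by simp [hφ]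
  have p1 : φ (of 1) = of 1 := by simp [hφ]
  have hcomp : FreeGroup.lift ![w, (of 1)⁻¹] = φ.comp τ := by
    ext k
    fin_cases k
    · simp [hτ, p0, p1, ← ew]
    · simp [hτ, p1]
  rw [hcomp, MonoidHom.comp_apply] at hw
  obtain ⟨L, hL, hmk, _, hc⟩ := main_count hT φ p0 p1 _ (τ w).toWord le_rfl isReduced_toWord
  rw [mk_toWord, hw] at hmk
  have hL0 : L = [((0 : Fin 2), true)] := by
    rw [← hL.reduce_eq, ← toWord_mk, hmk, toWord_of]
  subst hL0
  have ec : cnt w.toWord = cnt T := by
    rw [e, cnt_append, cnt_append, cnt_eq_zero h1, cnt_eq_zero h2]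
    omega
  rw [ec]
  rcases hc with hc | hc
  · have := hc _ List.mem_cons_self
    exact absurd this (by decide)
  · exact hc

end Pool.Agent.T2H66.GroupLaw
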